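import Pool.Agent.H36.ES.Cs3

/-! # ES.Cs1 : rotations and flips, and the induction over the moves `Mv` (complete, given the case `recut`) -/

namespace ES

open H68.BB Polynomial

variable {K : Type} [Field K] {s k : ℕ} {W : Wm K s}

theorem rot_rot (u : Vtx K) (z c : K) : (u.rot z).rot c = u.rot (c * z) := by
  unfold Vtx.rot
  simp only [Vtx.mk.injEq]
  refine ⟨by ring, ?_, by ring⟩
  rw [mul_inv]
  ring

theorem rot_one (u : Vtx K) : u.rot 1 = u := by
  unfold Vtx.rot
  ext
  · simp
  · simp
  · simp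

theorem pt_flip_rot (g : Lk s K) (z : K) :
    Lk.pt (g.1, (g.2.flip).rot z) = (Lk.pt (g.1, g.2.rot z)).neg := by
  unfold Lk.pt Vtx.rot Vtx.flip Pt.neg
  simp only [Pt.mk.injEq, true_and]
  constructor
  · ring
  · ring

theorem flip_ab (u : Vtx K) : u.flip.ab = u.ab := by
  unfold Vtx.flip Vtx.ab
  simp only [Prod.mk.injEq]
  constructor
  · ring
  · ring

/-- simultaneous rotation of all links, with product one -/
theorem Psi_rot_all {f f' : List (Lk s K)} {d : Fin k → K} (hd : ∀ i, d i ^ 6 = 1) (hd1 : ∏ i, d i = 1)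
    (h : ∀ i : Fin k, nth f' i = ((nth f i).1, (nth f i).2.rot (d i))) : Psi W k f' = Psi W k f := by
  unfold Psi
  have hd0 : ∀ i, d i ≠ 0 := fun i h0 => by
    have := hd i
    rw [h0, zero_pow (by norm_num)] at this
    exact zero_ne_one this
  refine Finset.sum_nbij' (fun z i => z i * d i) (fun z i => z i * (d i)⁻¹) ?_ ?_ ?_ ?_ ?_
  · intro z hz
    rw [mem_Z6] at hz ⊢
    refine ⟨fun i => by rw [mul_pow, hz.1, hd, mul_one], ?_⟩
    rw [Finset.prod_mul_distrib, hz.2, hd1, mul_one]
  · intro z hz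
    rw [mem_Z6] at hz ⊢
    refine ⟨fun i => by rw [mul_pow, hz.1, inv_pow, hd, inv_one, mul_one], ?_⟩
    rw [Finset.prod_mul_distrib, hz.2, Finset.prod_inv_distrib, hd1, inv_one, mul_one]
  · intro z _
    funext i
    exact mul_inv_cancel_right₀ (hd0 i) _
  · intro z _
    funext i
    exact inv_mul_cancel_right₀ (hd0 i) _
  · intro z _
    congr 1
    funext i
    unfold tup
    rw [h i, rot_rot]

variable [IsAlgClosed K] [CharZero K]

/-- flip of one link -/
theorem Psi_flip_at (hW : W.Ok) {f f' : List (Lk s K)} (hf : ∀ g ∈ f, g.Ok W) (h0 : ∀ g ∈ f, g.1 ≠ 0)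
    (hk : f.length = k) {j : Fin k} (hj : nth f' j = ((nth f j).1, (nth f j).2.flip))
    (h : ∀ i : Fin k, i ≠ j → nth f' i = nth f i) : Psi W k f' = - Psi W k f := by
  unfold Psi
  rw [← Finset.sum_neg_distrib]
  refine Finset.sum_congr rfl fun z hz => ?_
  rw [mem_Z6] at hz
  have hm : nth f j ∈ f := nth_mem (by rw [hk]; exact j.2)
  have hon : ∀ i, OnW W (tup k f z i) := fun i => tup_onW hf h0 hk hz.1 i
  have e1 : cls W (tup k f' z) = sl W (tup k f z) j (tup k f z j).neg := by
    unfold sl
    congr 1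
    funext i
    by_cases hi : i = j
    · subst hi
      rw [Function.update_self]
      unfold tup
      rw [hj]
      exact pt_flip_rot (nth f i) (z i)
    · rw [Function.update_of_ne hi]
      unfold tup
      rw [h i hi]
  have e2 : cls W (tup k f z) = sl W (tup k f z) j (tup k f z j) := by
    unfold sl
    rw [Function.update_eq_self]
  rw [e1, e2]
  exact eq_neg_of_add_eq_zero_right (sl_neg hW hon j (hon j))

omit [IsAlgClosed K] [CharZero K] in
theorem nth_append_left {pre suf : List (Lk s K)} {i : ℕ} (hi : i < pre.length) : nth (pre ++ suf) i = nth pre i := by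
  unfold nth
  exact List.getD_append _ _ _ _ hi

omit [IsAlgClosed K] [CharZero K] in
theorem nth_append_right {pre suf : List (Lk s K)} {i : ℕ} (hi : pre.length ≤ i) :
    nth (pre ++ suf) i = nth suf (i - pre.length) := by
  unfold nth
  exact List.getD_append_right _ _ _ _ hi

omit [IsAlgClosed K] [CharZero K] in
theorem nth_zero {g : Lk s K} {suf : List (Lk s K)} : nth (g :: suf) 0 = g := rfl

omit [IsAlgClosed K] [CharZero K] in
theorem nth_succ {g : Lk s K} {suf : List (Lk s K)} {i : ℕ} : nth (g :: suf) (i + 1) = nth suf i := rfl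

omit [IsAlgClosed K] [CharZero K] in
/-- rotation of two neighbours -/
theorem Psi_rot2 {pre suf : List (Lk s K)} {g1 g2 : Lk s K} {z : K} (hz : z ^ 6 = 1)
    (hk : (pre ++ g1 :: g2 :: suf).length = k) :
    Psi W k (pre ++ (g1.1, g1.2.rot z) :: (g2.1, g2.2.rot z⁻¹) :: suf) = Psi W k (pre ++ g1 :: g2 :: suf) := by
  have hz0 : z ≠ 0 := by
    rintro rfl
    rw [zero_pow (by norm_num)] at hz
    exact zero_ne_one hz
  rw [List.length_append, List.length_cons, List.length_cons] at hk
  have ha : pre.length < k := by omega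
  have hb : pre.length + 1 < k := by omega
  have hab : (⟨pre.length, ha⟩ : Fin k) ≠ ⟨pre.length + 1, hb⟩ := by
    intro h
    have := congrArg Fin.val h
    simp at this
  refine Psi_rot_all (d := fun i : Fin k => if (i : ℕ) = pre.length then z else
    if (i : ℕ) = pre.length + 1 then z⁻¹ else 1) (fun i => ?_) ?_ (fun i => ?_)
  · split_ifs
    · exact hz
    · rw [inv_pow, hz, inv_one]
    · exact one_pow _
  · have e : ∀ i : Fin k, (if (i : ℕ) = pre.length then z else if (i : ℕ) = pre.length + 1 then z⁻¹ else 1) =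
        (if i = ⟨pre.length, ha⟩ then z else 1) * (if i = ⟨pre.length + 1, hb⟩ then z⁻¹ else 1) := by
      intro i
      simp only [Fin.ext_iff]
      by_cases h1 : (i : ℕ) = pre.length
      · have h2 : ¬ (i : ℕ) = pre.length + 1 := by omega
        rw [if_pos h1, if_pos h1, if_neg h2, mul_one]
      · rw [if_neg h1, if_neg h1, one_mul]
    rw [Finset.prod_congr rfl fun i _ => e i, Finset.prod_mul_distrib, Finset.prod_ite_eq' Finset.univ,
      Finset.prod_ite_eq' Finset.univ, if_pos (Finset.mem_univ _), if_pos (Finset.mem_univ _),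
      mul_inv_cancel₀ hz0]
  · by_cases h1 : (i : ℕ) < pre.length
    · rw [nth_append_left h1, nth_append_left h1, if_neg (by omega), if_neg (by omega), rot_one]
    · rw [nth_append_right (by omega), nth_append_right (by omega)]
      by_cases h2 : (i : ℕ) = pre.length
      · rw [if_pos h2, h2, Nat.sub_self, nth_zero, nth_zero]
      · rw [if_neg h2]
        by_cases h3 : (i : ℕ) = pre.length + 1
        · rw [if_pos h3, h3, Nat.add_sub_cancel_left, nth_succ, nth_succ, nth_zero, nth_zero]
        · rw [if_neg h3]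
          obtain ⟨m, hm⟩ : ∃ m, (i : ℕ) - pre.length = m + 1 + 1 := ⟨(i : ℕ) - pre.length - 2, by omega⟩
          rw [hm, nth_succ, nth_succ, nth_succ, nth_succ, rot_one]

/-- flip of the last link -/
theorem Psi_flip (hW : W.Ok) {pre : List (Lk s K)} {g : Lk s K} (hf : ∀ g' ∈ pre ++ [g], g'.Ok W)
    (h0 : ∀ g' ∈ pre ++ [g], g'.1 ≠ 0) (hk : (pre ++ [g]).length = k) :
    Psi W k (pre ++ [(g.1, g.2.flip)]) = - Psi W k (pre ++ [g]) := by
  have hk' : pre.length + 1 = k := by rw [← hk, List.length_append, List.length_singleton]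
  have ha : pre.length < k := by omega
  refine Psi_flip_at hW hf h0 hk (j := ⟨pre.length, ha⟩) ?_ ?_
  · rw [nth_append_right (le_refl _), nth_append_right (le_refl _), Nat.sub_self, nth_zero, nth_zero]
  · intro i hi
    have h1 : (i : ℕ) < pre.length := by
      have h2 : (i : ℕ) ≠ pre.length := fun h => hi (Fin.ext h)
      have := i.2
      omega
    rw [nth_append_left h1, nth_append_left h1]

/-- the recutting relation for lists of length `k` -/
def RecutRel (W : Wm K s) (k : ℕ) : Prop :=
  ∀ (pre suf : List (Lk s K)) (g1 g2 h2 h1 : Lk s K), Recut g1.2 g2.2 h2.2 h1.2 → h1.1 = g1.1 → h2.1 = g2.1 →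
    ND g1.2.ab → ND g2.2.ab → g1.2.ab.2 ^ 2 * g2.2.ab.1 ^ 3 ≠ g2.2.ab.2 ^ 2 * g1.2.ab.1 ^ 3 →
    (∀ g ∈ pre ++ g1 :: g2 :: suf, g.Ok W) → (∀ g ∈ pre ++ g1 :: g2 :: suf, g.1 ≠ 0) →
    (∀ g ∈ pre ++ g1 :: g2 :: suf, ND g.2.ab) → (pre ++ g1 :: g2 :: suf).length = k →
    Psi W k (pre ++ h2 :: h1 :: suf) = Psi W k (pre ++ g1 :: g2 :: suf)

/-- the induction over the moves -/
theorem Psi_mv (hW : W.Ok) (hR : RecutRel W k) {f f' : List (Lk s K)} {e : ℤ} (h : Mv f f' e) :
    (∀ g ∈ f, g.Ok W) → (∀ g ∈ f, g.1 ≠ 0) → (∀ g ∈ f, ND g.2.ab) → f.length = k →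
    ((∀ g ∈ f', g.Ok W) ∧ (∀ g ∈ f', g.1 ≠ 0) ∧ (∀ g ∈ f', ND g.2.ab) ∧ f'.length = k) ∧
      Psi W k f' = e • Psi W k f := by
  induction h with
  | refl f =>
    intro h1 h2 hN h3
    exact ⟨⟨h1, h2, hN, h3⟩, (one_zsmul _).symm⟩
  | recut pre suf g1 g2 h2 h1 hr e1 e2 n1 n2 hne =>
    intro a1 a2 aN a3
    refine ⟨⟨?_, ?_, ?_, ?_⟩, ?_⟩
    · intro g hg
      simp only [List.mem_append, List.mem_cons] at hg a1
      have b1 := a1 g1 (Or.inr (Or.inl rfl))
      have b2 := a1 g2 (Or.inr (Or.inr (Or.inl rfl)))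
      rcases hg with hg | hg | hg | hg
      · exact a1 g (Or.inl hg)
      · subst hg
        refine ⟨fun f hf => ?_, ?_⟩
        · rw [e2]; exact b2.I f hf
        · rw [hr.ab2, e2]; exact b2.ab
      · subst hg
        refine ⟨fun f hf => ?_, ?_⟩
        · rw [e1]; exact b1.I f hf
        · rw [hr.ab1, e1]; exact b1.ab
      · exact a1 g (Or.inr (Or.inr (Or.inr hg)))
    · intro g hg
      simp only [List.mem_append, List.mem_cons] at hg a2
      rcases hg with hg | hg | hg | hg
      · exact a2 g (Or.inl hg)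
      · subst hg
        rw [e2]; exact a2 g2 (Or.inr (Or.inr (Or.inl rfl)))
      · subst hg
        rw [e1]; exact a2 g1 (Or.inr (Or.inl rfl))
      · exact a2 g (Or.inr (Or.inr (Or.inr hg)))
    · intro g hg
      simp only [List.mem_append, List.mem_cons] at hg aN
      rcases hg with hg | hg | hg | hg
      · exact aN g (Or.inl hg)
      · subst hg
        rw [hr.ab2]; exact n2
      · subst hg
        rw [hr.ab1]; exact n1
      · exact aN g (Or.inr (Or.inr (Or.inr hg)))
    · rw [← a3]
      simp only [List.length_append, List.length_cons]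
    · rw [one_zsmul]
      exact hR pre suf g1 g2 h2 h1 hr e1 e2 n1 n2 hne a1 a2 aN a3
  | rot pre suf g1 g2 z hz =>
    intro a1 a2 aN a3
    have hz' : z⁻¹ ^ 6 = 1 := by rw [inv_pow, hz, inv_one]
    refine ⟨⟨?_, ?_, ?_, ?_⟩, ?_⟩
    · intro g hg
      simp only [List.mem_append, List.mem_cons] at hg a1
      rcases hg with hg | hg | hg | hg
      · exact a1 g (Or.inl hg)
      · subst hg
        exact Lk.rot_ok (a1 g1 (Or.inr (Or.inl rfl))) hz
      · subst hg
        exact Lk.rot_ok (a1 g2 (Or.inr (Or.inr (Or.inl rfl)))) hz'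
      · exact a1 g (Or.inr (Or.inr (Or.inr hg)))
    · intro g hg
      simp only [List.mem_append, List.mem_cons] at hg a2
      rcases hg with hg | hg | hg | hg
      · exact a2 g (Or.inl hg)
      · subst hg
        exact a2 g1 (Or.inr (Or.inl rfl))
      · subst hg
        exact a2 g2 (Or.inr (Or.inr (Or.inl rfl)))
      · exact a2 g (Or.inr (Or.inr (Or.inr hg)))
    · intro g hg
      simp only [List.mem_append, List.mem_cons] at hg aN
      rcases hg with hg | hg | hg | hg
      · exact aN g (Or.inl hg)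
      · subst hg
        show ND (g1.2.rot z).ab
        rw [rot_ab hz]; exact aN g1 (Or.inr (Or.inl rfl))
      · subst hg
        show ND (g2.2.rot z⁻¹).ab
        rw [rot_ab hz']; exact aN g2 (Or.inr (Or.inr (Or.inl rfl)))
      · exact aN g (Or.inr (Or.inr (Or.inr hg)))
    · rw [← a3]
      simp only [List.length_append, List.length_cons]
    · rw [one_zsmul]
      exact Psi_rot2 hz a3
  | flip pre g =>
    intro a1 a2 aN a3
    refine ⟨⟨?_, ?_, ?_, ?_⟩, ?_⟩
    · intro g' hg
      simp only [List.mem_append, List.mem_singleton] at hg a1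
      rcases hg with hg | hg
      · exact a1 g' (Or.inl hg)
      · subst hg
        have b := a1 g (Or.inr rfl)
        refine ⟨b.I, ?_⟩
        show g.2.flip.ab = _
        rw [flip_ab]
        exact b.ab
    · intro g' hg
      simp only [List.mem_append, List.mem_singleton] at hg a2
      rcases hg with hg | hg
      · exact a2 g' (Or.inl hg)
      · subst hg
        exact a2 g (Or.inr rfl)
    · intro g' hg
      simp only [List.mem_append, List.mem_singleton] at hg aN
      rcases hg with hg | hg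
      · exact aN g' (Or.inl hg)
      · subst hg
        show ND g.2.flip.ab
        rw [flip_ab]; exact aN g (Or.inr rfl)
    · rw [← a3]
      simp only [List.length_append, List.length_singleton]
    · rw [neg_one_zsmul]
      exact Psi_flip hW a1 a2 a3
  | trans h1 h2 ih1 ih2 =>
    intro a1 a2 aN a3
    obtain ⟨⟨b1, b2, bN, b3⟩, b4⟩ := ih1 a1 a2 aN a3
    obtain ⟨c, c4⟩ := ih2 b1 b2 bN b3
    refine ⟨c, ?_⟩
    rw [c4, b4, smul_smul, mul_comm]

end ES
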