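import Mathlib

/-! # ES.CsA : character sums over `(ZMod 6)^k` with integer coefficients (Mathlib only, complete)

`Φ : (Fin k → ZMod 6) → G` with `Φ(i + 3 e_j) = - Φ(i)` and `Φ(i) + Φ(i + 2 e_j) + Φ(i + 4 e_j) = 0` for all `i`, `j`.  Then
`12 ∑_S ∑_(i : ∑ i = 0) Φ(± i) = 4 6^k Φ(0)`, where the signs are `-` on `S`. -/

namespace ES

open Finset

/-- `ee m x = χ(x) + χ(-x)` for the characters `χ` of order 1, 6, 3, 2 (`m = 0, 1, 2, 3`) -/
def ee (m : Fin 4) (x : ZMod 6) : ℤ :=
  (![![2, 2, 2, 2, 2, 2], ![2, 1, -1, -2, -1, 1], ![2, -1, -1, 2, -1, -1], ![2, -2, 2, -2, 2, -2]] :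
    Fin 4 → Fin 6 → ℤ) m x

/-- multiplicities -/
def cc (m : Fin 4) : ℤ := (![1, 2, 2, 1] : Fin 4 → ℤ) m

theorem ee_add (m : Fin 4) (x i : ZMod 6) : ee m (x + i) + ee m (x - i) = ee m x * ee m i := by
  revert m x i
  decide

theorem ee_zero (m : Fin 4) : ee m 0 = 2 := by
  revert m
  decide

theorem ee_ind (x : ZMod 6) : ∑ m, cc m * ee m x = if x = 0 then 12 else 0 := by
  revert x
  decide

/-- `-` on `S` -/
def sg {ι : Type} [DecidableEq ι] (S : Finset ι) (i : ι → ZMod 6) (j : ι) : ZMod 6 := if j ∈ S then - i j else i j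

theorem ee_sum {ι : Type} [DecidableEq ι] (m : Fin 4) (i : ι → ZMod 6) (T : Finset ι) (x : ZMod 6) :
    ∑ S ∈ T.powerset, ee m (x + ∑ j ∈ T, sg S i j) = ee m x * ∏ j ∈ T, ee m (i j) := by
  induction T using Finset.induction_on generalizing x with
  | empty => simp
  | insert a T ha ih =>
    rw [Finset.sum_powerset_insert ha, Finset.prod_insert ha]
    have h1 : ∑ S ∈ T.powerset, ee m (x + ∑ j ∈ insert a T, sg S i j) =
        ∑ S ∈ T.powerset, ee m (x + i a + ∑ j ∈ T, sg S i j) := by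
      refine Finset.sum_congr rfl fun S hS => ?_
      rw [Finset.sum_insert ha]
      have : sg S i a = i a := if_neg fun h => ha (Finset.mem_powerset.1 hS h)
      rw [this, add_assoc]
    have h2 : ∑ S ∈ T.powerset, ee m (x + ∑ j ∈ insert a T, sg (insert a S) i j) =
        ∑ S ∈ T.powerset, ee m (x - i a + ∑ j ∈ T, sg S i j) := by
      refine Finset.sum_congr rfl fun S hS => ?_
      rw [Finset.sum_insert ha]
      have e1 : sg (insert a S) i a = - i a := if_pos (Finset.mem_insert_self _ _)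
      have e2 : ∑ j ∈ T, sg (insert a S) i j = ∑ j ∈ T, sg S i j := by
        refine Finset.sum_congr rfl fun j hj => ?_
        have hja : j ≠ a := fun h => ha (h ▸ hj)
        unfold sg
        simp only [Finset.mem_insert, hja, false_or]
      rw [e1, e2, ← add_assoc, sub_eq_add_neg]
    rw [h1, h2, ih, ih, ← add_mul, ee_add]
    ring

section
variable {G : Type} [AddCommGroup G]

theorem weight_sum (g : ZMod 6 → ℤ) (c : ℤ) : ∀ (k : ℕ) (Φ : (Fin k → ZMod 6) → G),
    (∀ (i : Fin k → ZMod 6) (j : Fin k), ∑ a, g a • Φ (Function.update i j a) = c • Φ (Function.update i j 0)) →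
    ∑ i : Fin k → ZMod 6, (∏ j, g (i j)) • Φ i = c ^ k • Φ 0 := by
  intro k
  induction k with
  | zero =>
    intro Φ _
    rw [Fintype.sum_unique]
    simp only [Finset.univ_eq_empty, Finset.prod_empty, pow_zero]
    congr 2
    funext j
    exact j.elim0
  | succ k ih =>
    intro Φ h
    have e : ∑ i : Fin (k + 1) → ZMod 6, (∏ j, g (i j)) • Φ i =
        ∑ i' : Fin k → ZMod 6, ∑ a : ZMod 6, (g a * ∏ j, g (i' j)) • Φ (Fin.cons a i') := by
      rw [← Fintype.sum_equiv (Fin.consEquiv (fun _ => ZMod 6))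
        (fun q => (∏ j, g ((Fin.cons q.1 q.2 : Fin (k + 1) → ZMod 6) j)) • Φ (Fin.cons q.1 q.2)) _
        (fun q => rfl), Fintype.sum_prod_type, Finset.sum_comm]
      refine Finset.sum_congr rfl fun i' _ => Finset.sum_congr rfl fun a _ => ?_
      rw [Fin.prod_univ_succ]
      simp only [Fin.cons_zero, Fin.cons_succ]
    rw [e]
    have e2 : ∀ i' : Fin k → ZMod 6, ∑ a : ZMod 6, (g a * ∏ j, g (i' j)) • Φ (Fin.cons a i') =
        (∏ j, g (i' j)) • (c • Φ (Fin.cons 0 i')) := by
      intro i'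
      have h1 := h (Fin.cons 0 i') 0
      simp only [Fin.update_cons_zero] at h1
      rw [← h1, Finset.smul_sum]
      refine Finset.sum_congr rfl fun a _ => ?_
      rw [smul_smul, mul_comm]
    rw [Finset.sum_congr rfl fun i' _ => e2 i']
    have h3 := ih (fun i' => c • Φ (Fin.cons 0 i')) (by
      intro i j
      have h4 := h (Fin.cons 0 i) j.succ
      simp only [← Fin.cons_update] at h4
      have h5 : ∑ a, g a • c • Φ (Fin.cons 0 (Function.update i j a)) =
          c • ∑ a, g a • Φ (Fin.cons 0 (Function.update i j a)) := by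
        rw [Finset.smul_sum]
        refine Finset.sum_congr rfl fun a _ => ?_
        rw [smul_smul, smul_smul, mul_comm]
      rw [h5, h4])
    rw [h3, smul_smul, pow_succ]
    congr 2
    funext j
    refine Fin.cases ?_ (fun j => ?_) j
    · rfl
    · rfl

/-- the relations in one slot -/
private theorem slot_weight (Φ : ZMod 6 → G) (h3 : ∀ x, Φ (x + 3) = - Φ x)
    (h2 : ∀ x, Φ x + Φ (x + 2) + Φ (x + 4) = 0) (m : Fin 4) :
    ∑ a, ee m a • Φ a = (if m = 1 then (6 : ℤ) else 0) • Φ 0 := by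
  have e3 : Φ 3 = - Φ 0 := by simpa using h3 0
  have e4 : Φ 4 = - Φ 1 := by
    have h := h3 1
    have e : (1 : ZMod 6) + 3 = 4 := by decide
    rwa [e] at h
  have e5 : Φ 5 = - Φ 2 := by
    have h := h3 2
    have e : (2 : ZMod 6) + 3 = 5 := by decide
    rwa [e] at h
  have e6 : Φ 0 + Φ 2 + Φ 4 = 0 := by simpa using h2 0
  rw [e4] at e6
  have e7 : Φ 1 = Φ 0 + Φ 2 := (sub_eq_zero.1 (by rw [sub_eq_add_neg]; exact e6)).symm
  have hsum : ∀ F : ZMod 6 → G, ∑ a, F a = F 0 + F 1 + F 2 + F 3 + F 4 + F 5 := by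
    intro F
    exact Fin.sum_univ_six F
  rw [hsum, e3, e4, e5, e7]
  fin_cases m
  · have : (0 : Fin 4) ≠ 1 := by decide
    simp only [Fin.zero_eta, if_neg this]
    have e0 : ∀ a, ee 0 a = 2 := by decide
    simp only [e0]
    module
  · simp only [Fin.mk_one, if_true]
    have a0 : ee 1 0 = 2 := by decide
    have a1 : ee 1 1 = 1 := by decide
    have a2 : ee 1 2 = -1 := by decide
    have a3 : ee 1 3 = -2 := by decide
    have a4 : ee 1 4 = -1 := by decide
    have a5 : ee 1 5 = 1 := by decide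
    rw [a0, a1, a2, a3, a4, a5]
    module
  · have : (2 : Fin 4) ≠ 1 := by decide
    simp only [Fin.reduceFinMk, if_neg this]
    have a0 : ee 2 0 = 2 := by decide
    have a1 : ee 2 1 = -1 := by decide
    have a2 : ee 2 2 = -1 := by decide
    have a3 : ee 2 3 = 2 := by decide
    have a4 : ee 2 4 = -1 := by decide
    have a5 : ee 2 5 = -1 := by decide
    rw [a0, a1, a2, a3, a4, a5]
    module
  · have : (3 : Fin 4) ≠ 1 := by decide
    simp only [Fin.reduceFinMk, if_neg this]
    have a0 : ee 3 0 = 2 := by decide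
    have a1 : ee 3 1 = -2 := by decide
    have a2 : ee 3 2 = 2 := by decide
    have a3 : ee 3 3 = -2 := by decide
    have a4 : ee 3 4 = 2 := by decide
    have a5 : ee 3 5 = -2 := by decide
    rw [a0, a1, a2, a3, a4, a5]
    module

/-- the character sum -/
theorem chars {k : ℕ} (hk : 0 < k) (Φ : (Fin k → ZMod 6) → G)
    (h3 : ∀ (i : Fin k → ZMod 6) (j : Fin k) (x : ZMod 6),
      Φ (Function.update i j (x + 3)) = - Φ (Function.update i j x))
    (h2 : ∀ (i : Fin k → ZMod 6) (j : Fin k) (x : ZMod 6),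
      Φ (Function.update i j x) + Φ (Function.update i j (x + 2)) + Φ (Function.update i j (x + 4)) = 0) :
    (12 : ℤ) • ∑ S : Finset (Fin k), ∑ i : Fin k → ZMod 6 with ∑ j, i j = 0, Φ (sg S i) =
      (4 * 6 ^ k : ℤ) • Φ 0 := by
  classical
  -- substitute `i ↦ sg S i`
  have e1 : ∀ S : Finset (Fin k), ∑ i : Fin k → ZMod 6 with ∑ j, i j = 0, Φ (sg S i) =
      ∑ i : Fin k → ZMod 6, (if ∑ j, sg S i j = 0 then Φ i else 0) := by
    intro S
    rw [Finset.sum_filter]
    have hinv : ∀ i, sg S (sg S i) = i := by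
      intro i
      funext j
      unfold sg
      split_ifs <;> simp
    refine Finset.sum_nbij' (fun i => sg S i) (fun i => sg S i) (fun i _ => Finset.mem_univ _)
      (fun i _ => Finset.mem_univ _) (fun i _ => hinv i) (fun i _ => hinv i) fun i _ => ?_
    rw [hinv]
  have e2 : (12 : ℤ) • ∑ S : Finset (Fin k), ∑ i : Fin k → ZMod 6 with ∑ j, i j = 0, Φ (sg S i) =
      ∑ m : Fin 4, (cc m * 2) • ∑ i : Fin k → ZMod 6, (∏ j, ee m (i j)) • Φ i := by
    rw [Finset.sum_congr rfl fun S _ => e1 S, Finset.sum_comm, Finset.smul_sum]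
    have e3 : ∀ i : Fin k → ZMod 6, (12 : ℤ) • ∑ S : Finset (Fin k), (if ∑ j, sg S i j = 0 then Φ i else 0) =
        ∑ m : Fin 4, (cc m * 2) • ((∏ j, ee m (i j)) • Φ i) := by
      intro i
      have e4 : ∀ S : Finset (Fin k), (12 : ℤ) • (if ∑ j, sg S i j = 0 then Φ i else 0) =
          (∑ m, cc m * ee m (0 + ∑ j, sg S i j)) • Φ i := by
        intro S
        rw [ee_ind, zero_add]
        split_ifs <;> simp
      rw [Finset.smul_sum, Finset.sum_congr rfl fun S _ => e4 S, ← Finset.sum_smul, Finset.sum_comm,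
        Finset.sum_smul]
      refine Finset.sum_congr rfl fun m _ => ?_
      rw [← Finset.mul_sum]
      have h5 := ee_sum m i Finset.univ 0
      rw [Finset.powerset_univ] at h5
      rw [h5, ee_zero, smul_smul, mul_assoc]
    rw [Finset.sum_congr rfl fun i _ => e3 i, Finset.sum_comm]
    refine Finset.sum_congr rfl fun m _ => ?_
    rw [Finset.smul_sum]
  have e5 : ∀ m : Fin 4, ∑ i : Fin k → ZMod 6, (∏ j, ee m (i j)) • Φ i =
      ((if m = 1 then (6 : ℤ) else 0) ^ k) • Φ 0 := by
    intro m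
    refine weight_sum (ee m) _ k Φ fun i j => ?_
    exact slot_weight (fun a => Φ (Function.update i j a)) (fun x => h3 i j x) (fun x => h2 i j x) m
  rw [e2, Finset.sum_congr rfl fun m _ => by rw [e5 m], Fin.sum_univ_four]
  have n0 : (0 : Fin 4) ≠ 1 := by decide
  have n2 : (2 : Fin 4) ≠ 1 := by decide
  have n3 : (3 : Fin 4) ≠ 1 := by decide
  simp only [if_neg n0, if_neg n2, if_neg n3, if_true, zero_pow hk.ne', zero_smul, smul_zero, zero_add,
    add_zero, smul_smul]
  have c1 : cc 1 = 2 := by decide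
  rw [c1]
  norm_num

end

end ES
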