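import Pool.Agent.H36.ES.Cs3
import Pool.Agent.H36.ES.CsA

/-! # ES.Cs4 : the pure tensor (complete)

`swpL S f` is the list `f` (of length `k`) with `w` and `v` exchanged in the links with index in `S`; `Psi_swp`:
`12 ∑_S Psi W k (swpL S f) = 4 6^k cls W (points of f)`; `cls_fin`: if all `Psi W k (swpL S f)` have finite order, then so has
the class of the points of `f`. -/

namespace ES

open H68.BB Polynomial

variable {K : Type} [Field K] {s k : ℕ} {W : Wm K s}

/-- the list with `w` and `v` exchanged in the links with index in `S` -/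
noncomputable def swpL {k : ℕ} (S : Finset (Fin k)) (f : List (Lk s K)) : List (Lk s K) :=
  List.ofFn fun i : Fin k => if i ∈ S then (nth f i).swp else nth f i

theorem swpL_length (S : Finset (Fin k)) (f : List (Lk s K)) : (swpL S f).length = k := by
  unfold swpL
  rw [List.length_ofFn]

theorem nth_swpL (S : Finset (Fin k)) (f : List (Lk s K)) (i : Fin k) :
    nth (swpL S f) i = if i ∈ S then (nth f i).swp else nth f i := by
  have h1 : nth (swpL S f) i = (swpL S f)[(i : ℕ)]'(by rw [swpL_length]; exact i.2) := by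
    unfold nth
    rw [List.getD_eq_getElem _ _ (by rw [swpL_length]; exact i.2)]
  rw [h1]
  simp only [swpL, List.getElem_ofFn, Fin.eta]

theorem swpL_forall (S : Finset (Fin k)) {f : List (Lk s K)} (hk : f.length = k) :
    List.Forall₂ (fun g g' : Lk s K => g' = g ∨ g' = g.swp) f (swpL S f) := by
  rw [List.forall₂_iff_get]
  refine ⟨by rw [swpL_length, hk], fun i h1 h2 => ?_⟩
  have hi : i < k := by rw [← hk]; exact h1
  have e1 : (swpL S f).get ⟨i, h2⟩ = nth (swpL S f) (⟨i, hi⟩ : Fin k) := by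
    unfold nth
    rw [List.getD_eq_getElem _ _ h2]
    rfl
  have e2 : f.get ⟨i, h1⟩ = nth f i := by
    unfold nth
    rw [List.getD_eq_getElem _ _ h1]
    rfl
  rw [e1, e2, nth_swpL]
  split_ifs
  · exact Or.inr rfl
  · exact Or.inl rfl

theorem pt_swp_rot (g : Lk s K) {z : K} (hz : z ^ 6 = 1) :
    Lk.pt (g.swp.1, g.swp.2.rot z) = Lk.pt (g.1, g.2.rot z⁻¹) := by
  have hz0 : z ≠ 0 := by
    rintro rfl
    rw [zero_pow (by norm_num)] at hz
    exact zero_ne_one hz
  unfold Lk.pt Lk.swp Vtx.swp Vtx.rot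
  simp only [Pt.mk.injEq, true_and]
  constructor
  · rw [inv_inv]; ring
  · have h3 : z⁻¹ ^ 3 = z ^ 3 := by
      rw [inv_pow, inv_eq_iff_eq_inv]
      exact eq_inv_of_mul_eq_one_left (by rw [← hz]; ring)
    rw [h3]

section
variable {ζ : K}

/-- the powers of a primitive sixth root of unity -/
noncomputable def pw (ζ : K) (a : ZMod 6) : K := ζ ^ a.val

theorem pw_add (h : ζ ^ 6 = 1) (a b : ZMod 6) : pw ζ (a + b) = pw ζ a * pw ζ b := by
  unfold pw
  rw [ZMod.val_add, ← pow_add]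
  conv_rhs => rw [← Nat.mod_add_div (a.val + b.val) 6, pow_add, pow_mul, h, one_pow, mul_one]

theorem pw_zero : pw ζ 0 = 1 := by
  unfold pw
  rw [ZMod.val_zero, pow_zero]

theorem pw_neg (h : ζ ^ 6 = 1) (a : ZMod 6) : pw ζ (-a) = (pw ζ a)⁻¹ := by
  refine eq_inv_of_mul_eq_one_left ?_
  rw [← pw_add h, neg_add_cancel, pw_zero]

theorem pw_six (h : ζ ^ 6 = 1) (a : ZMod 6) : pw ζ a ^ 6 = 1 := by
  unfold pw
  rw [← pow_mul, mul_comm, pow_mul, h, one_pow]

theorem pw_sum (h : ζ ^ 6 = 1) {ι : Type} (T : Finset ι) (i : ι → ZMod 6) :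
    pw ζ (∑ j ∈ T, i j) = ∏ j ∈ T, pw ζ (i j) := by
  classical
  induction T using Finset.induction_on with
  | empty => rw [Finset.sum_empty, Finset.prod_empty, pw_zero]
  | insert a T ha ih => rw [Finset.sum_insert ha, Finset.prod_insert ha, pw_add h, ih]

theorem pw_inj (h : IsPrimitiveRoot ζ 6) {a b : ZMod 6} (hab : pw ζ a = pw ζ b) : a = b := by
  have h1 := h.pow_inj (ZMod.val_lt a) (ZMod.val_lt b) hab
  exact ZMod.val_injective 6 h1

theorem exists_pw (h : IsPrimitiveRoot ζ 6) {z : K} (hz : z ^ 6 = 1) : ∃ a, pw ζ a = z := by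
  obtain ⟨i, hi, rfl⟩ := h.eq_pow_of_pow_eq_one hz
  refine ⟨(i : ZMod 6), ?_⟩
  unfold pw
  rw [ZMod.val_natCast, Nat.mod_eq_of_lt hi]

end

/-- the sum `Psi` as a sum over `(ZMod 6)^k` -/
theorem Psi_zmod {ζ : K} (h : IsPrimitiveRoot ζ 6) (f : List (Lk s K)) :
    Psi W k f = ∑ i : Fin k → ZMod 6 with ∑ j, i j = 0, cls W (tup k f fun j => pw ζ (i j)) := by
  have h6 : ζ ^ 6 = 1 := h.pow_eq_one
  unfold Psi
  symm
  refine Finset.sum_bij (fun i _ => fun j => pw ζ (i j)) ?_ ?_ ?_ ?_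
  · intro i hi
    rw [Finset.mem_filter] at hi
    rw [mem_Z6]
    refine ⟨fun j => pw_six h6 _, ?_⟩
    rw [← pw_sum h6, hi.2, pw_zero]
  · intro i _ i' _ hii
    funext j
    exact pw_inj h (congrFun hii j)
  · intro z hz
    rw [mem_Z6] at hz
    choose i hi using fun j => exists_pw h (hz.1 j)
    refine ⟨i, ?_, funext hi⟩
    rw [Finset.mem_filter]
    refine ⟨Finset.mem_univ _, ?_⟩
    refine pw_inj h ?_
    rw [pw_sum h6, pw_zero, ← hz.2]
    exact Finset.prod_congr rfl fun j _ => hi j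
  · intro i _
    rfl

variable [IsAlgClosed K] [CharZero K]

/-- the pure tensor -/
theorem Psi_swp (hW : W.Ok) (hk0 : 0 < k) {f : List (Lk s K)} (hf : ∀ g ∈ f, g.Ok W) (h0 : ∀ g ∈ f, g.1 ≠ 0)
    (hk : f.length = k) :
    (12 : ℤ) • ∑ S : Finset (Fin k), Psi W k (swpL S f) =
      (4 * 6 ^ k : ℤ) • cls W (fun i : Fin k => (nth f i).pt) := by
  classical
  obtain ⟨ζ, h⟩ : ∃ ζ : K, IsPrimitiveRoot ζ 6 := by
    have : NeZero ((6 : ℕ) : K) := ⟨by norm_num⟩
    exact HasEnoughRootsOfUnity.exists_primitiveRoot K 6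
  have h6 : ζ ^ 6 = 1 := h.pow_eq_one
  have hm : ∀ i : Fin k, nth f i ∈ f := fun i => nth_mem (by rw [hk]; exact i.2)
  set Φ : (Fin k → ZMod 6) → AA k W := fun i => cls W (tup k f fun j => pw ζ (i j)) with hΦ
  -- `Psi` of the exchanged lists
  have e1 : ∀ S : Finset (Fin k), Psi W k (swpL S f) =
      ∑ i : Fin k → ZMod 6 with ∑ j, i j = 0, Φ (sg S i) := by
    intro S
    rw [Psi_zmod h]
    refine Finset.sum_congr rfl fun i _ => ?_
    simp only [hΦ]
    congr 1
    funext j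
    unfold tup
    rw [nth_swpL]
    unfold sg
    by_cases hj : j ∈ S
    · simp only [if_pos hj]
      rw [pt_swp_rot _ (pw_six h6 _), pw_neg h6]
    · simp only [if_neg hj]
  have hon : ∀ i : Fin k → ZMod 6, ∀ j, OnW W (tup k f (fun j => pw ζ (i j)) j) := fun i j =>
    tup_onW hf h0 hk (fun j => pw_six h6 _) j
  have hsl : ∀ (i : Fin k → ZMod 6) (j : Fin k) (x : ZMod 6), Φ (Function.update i j x) =
      sl W (tup k f fun j => pw ζ (i j)) j (Lk.pt ((nth f j).1, (nth f j).2.rot (pw ζ x))) := by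
    intro i j x
    simp only [hΦ]
    unfold sl
    congr 1
    funext l
    by_cases hl : l = j
    · subst hl
      rw [Function.update_self]
      unfold tup
      simp only [Function.update_self]
    · rw [Function.update_of_ne hl]
      unfold tup
      simp only [Function.update_of_ne hl]
  have e3 : pw ζ 3 = -1 := by
    have h3 : pw ζ 3 ^ 2 = 1 := by
      rw [sq, ← pw_add h6]
      exact pw_zero
    have h4 : pw ζ 3 ≠ 1 := by
      intro h5
      have h7 := pw_inj h (h5.trans pw_zero.symm)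
      exact absurd h7 (by decide)
    have h8 : (pw ζ 3 - 1) * (pw ζ 3 + 1) = 0 := by linear_combination h3
    exact eq_neg_of_add_eq_zero_left ((mul_eq_zero.1 h8).resolve_left (sub_ne_zero.2 h4))
  have hom : pw ζ 2 ^ 2 + pw ζ 2 + 1 = 0 := by
    have h3 : pw ζ 2 ^ 3 = 1 := by
      rw [pow_succ, sq, ← pw_add h6, ← pw_add h6]
      exact pw_zero
    have h4 : pw ζ 2 ≠ 1 := by
      intro h5
      have h7 := pw_inj h (h5.trans pw_zero.symm)
      exact absurd h7 (by decide)
    have h8 : (pw ζ 2 - 1) * (pw ζ 2 ^ 2 + pw ζ 2 + 1) = 0 := by linear_combination h3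
    exact (mul_eq_zero.1 h8).resolve_left (sub_ne_zero.2 h4)
  have key := chars hk0 Φ (fun i j x => ?_) (fun i j x => ?_)
  · rw [Finset.sum_congr rfl fun S _ => e1 S, key]
    congr 1
    simp only [hΦ]
    congr 1
    funext j
    unfold tup
    simp only [Pi.zero_apply, pw_zero]
    unfold Lk.pt Vtx.rot
    simp only [Pt.mk.injEq, true_and]
    constructor
    · rw [inv_one]; ring
    · ring
  · rw [hsl, hsl, pw_add h6, e3, mul_neg_one]
    exact sl_rot_neg hW (hon i) j (hf _ (hm j)) (h0 _ (hm j)) (pw_six h6 x)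
  · have h4 : pw ζ (4 : ZMod 6) = pw ζ 2 ^ 2 := by
      rw [sq, ← pw_add h6]
      rfl
    rw [hsl, hsl, hsl, pw_add h6, pw_add h6, h4, mul_comm _ (pw ζ 2), mul_comm _ (pw ζ 2 ^ 2)]
    exact sl_rot3' hW (hon i) j (hf _ (hm j)) (h0 _ (hm j)) hom (pw_six h6 x)

/-- if all sums `Psi` have finite order, so has the class of the points -/
theorem cls_fin (hW : W.Ok) (hk0 : 0 < k) {f : List (Lk s K)} (hf : ∀ g ∈ f, g.Ok W) (h0 : ∀ g ∈ f, g.1 ≠ 0)
    (hk : f.length = k) (h : ∀ S : Finset (Fin k), IsOfFinAddOrder (Psi W k (swpL S f))) :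
    IsOfFinAddOrder (cls W (fun i : Fin k => (nth f i).pt)) := by
  classical
  have h1 : IsOfFinAddOrder (∑ S : Finset (Fin k), Psi W k (swpL S f)) := by
    refine Finset.sum_induction _ (fun x => IsOfFinAddOrder x) (fun a b ha hb => ha.add hb) ?_ fun S _ => h S
    exact IsOfFinAddOrder.zero
  have h2 : IsOfFinAddOrder ((4 * 6 ^ k : ℤ) • cls W (fun i : Fin k => (nth f i).pt)) := by
    rw [← Psi_swp hW hk0 hf h0 hk]
    exact h1.zsmul
  obtain ⟨n, hn, h3⟩ := isOfFinAddOrder_iff_nsmul_eq_zero.1 h2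
  refine isOfFinAddOrder_iff_nsmul_eq_zero.2 ⟨n * (4 * 6 ^ k), by positivity, ?_⟩
  rw [← h3, mul_smul]
  congr 1

end ES
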