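import Pool.Agent.H34.ES.Fib
import Pool.Agent.H67.ES.Mdef

/-! # ES.Cs3 : the three points of a fibre with the same `y`, and the opposite points, in one slot and for `Psi` (complete) -/

namespace ES

open H68.BB Polynomial

variable {K : Type} [Field K] {s k : ℕ} {W : Wm K s}

/-- the vertex with `w` and `v` exchanged -/
def Vtx.swp {F : Type} (u : Vtx F) : Vtx F := ⟨u.v, u.w, u.y⟩

/-- the link with `w` and `v` exchanged -/
def Lk.swp {F : Type} (g : Lk s F) : Lk s F := (g.1, g.2.swp)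

theorem rot_ab {z : K} (hz : z ^ 6 = 1) (u : Vtx K) : (u.rot z).ab = u.ab := by
  have hz0 : z ≠ 0 := by
    rintro rfl
    rw [zero_pow (by norm_num)] at hz
    exact zero_ne_one hz
  have h1 : z * u.w * (z⁻¹ * u.v) = u.w * u.v := by
    field_simp
  have h2 : (z * u.w) ^ 6 + (z⁻¹ * u.v) ^ 6 - (z ^ 3 * u.y) ^ 2 = u.w ^ 6 + u.v ^ 6 - u.y ^ 2 := by
    have h3 : (z ^ 3) ^ 2 = 1 := by rw [← pow_mul]; exact hz
    have h4 : z⁻¹ ^ 6 = 1 := by rw [inv_pow, hz, inv_one]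
    rw [mul_pow, mul_pow, mul_pow, h3, h4, hz]
    ring
  unfold Vtx.ab Vtx.rot
  simp only
  rw [h1, h2]

/-- the point of a link lies on `W` -/
theorem Lk.onW (h2 : (2 : K) ≠ 0) {g : Lk s K} (h : g.Ok W) (h0 : g.1 ≠ 0) : OnW W g.pt := by
  have hab := h.ab
  unfold Vtx.ab at hab
  have ha : ev W.a g.1 = (g.2.w * g.2.v) ^ 2 := (congrArg Prod.fst hab).symm
  have hb : ev W.b g.1 = (g.2.w ^ 6 + g.2.v ^ 6 - g.2.y ^ 2) / 2 := (congrArg Prod.snd hab).symm
  refine ⟨Or.inl h0, h.I, ?_⟩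
  show g.2.y ^ 2 = (g.2.w ^ 2 + g.2.v ^ 2) ^ 3 - 3 * ev W.a g.1 * (g.2.w ^ 2 + g.2.v ^ 2) - 2 * ev W.b g.1
  rw [ha, hb]
  field_simp
  ring

theorem Lk.rot_ok {g : Lk s K} (h : g.Ok W) {z : K} (hz : z ^ 6 = 1) : Lk.Ok W (g.1, g.2.rot z) :=
  ⟨h.I, by rw [← h.ab]; exact rot_ab hz g.2⟩

theorem Lk.swp_ok {g : Lk s K} (h : g.Ok W) : Lk.Ok W g.swp := by
  refine ⟨h.I, ?_⟩
  show g.2.swp.ab = (ev W.a g.1, ev W.b g.1)
  rw [← h.ab]
  unfold Vtx.swp Vtx.ab
  simp only [Prod.mk.injEq]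
  constructor
  · ring
  · ring

variable [IsAlgClosed K] [CharZero K] {P : Fin k → Pt s K}

omit [IsAlgClosed K] [CharZero K] in
theorem pt_rot_neg (g : Lk s K) (z : K) : Lk.pt (g.1, g.2.rot (-z)) = (Lk.pt (g.1, g.2.rot z)).neg := by
  unfold Lk.pt Vtx.rot Pt.neg
  simp only [Pt.mk.injEq, true_and]
  constructor
  · rw [inv_neg]; ring
  · ring

/-- opposite rotations -/
theorem sl_rot_neg (hW : W.Ok) (hP : ∀ j, OnW W (P j)) (i : Fin k) {g : Lk s K} (hg : g.Ok W) (h0 : g.1 ≠ 0) {z : K}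
    (hz : z ^ 6 = 1) : sl W P i (Lk.pt (g.1, g.2.rot (-z))) = - sl W P i (Lk.pt (g.1, g.2.rot z)) := by
  rw [pt_rot_neg]
  exact eq_neg_of_add_eq_zero_right (sl_neg hW hP i (Lk.onW two_ne_zero (Lk.rot_ok hg hz) h0))

/-- three points with the same `y` -/
theorem sl_rot3 (hW : W.Ok) (hP : ∀ j, OnW W (P j)) (i : Fin k) {g : Lk s K} (hg : g.Ok W) (h0 : g.1 ≠ 0) {om : K}
    (hom : om ^ 2 + om + 1 = 0) :
    sl W P i g.pt + sl W P i (Lk.pt (g.1, g.2.rot om)) + sl W P i (Lk.pt (g.1, g.2.rot (om ^ 2))) = 0 := by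
  have h3 : om ^ 3 = 1 := by linear_combination (om - 1) * hom
  have hom0 : om ≠ 0 := by
    rintro rfl
    rw [zero_pow (by norm_num)] at h3
    exact zero_ne_one h3
  have hinv : om⁻¹ = om ^ 2 := by
    rw [inv_eq_iff_eq_inv]
    exact eq_inv_of_mul_eq_one_left (by rw [← h3]; ring)
  have hinv2 : (om ^ 2)⁻¹ = om := by rw [← hinv, inv_inv]
  have hab := hg.ab
  unfold Vtx.ab at hab
  have ha : ev W.a g.1 = (g.2.w * g.2.v) ^ 2 := (congrArg Prod.fst hab).symm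
  have hb : ev W.b g.1 = (g.2.w ^ 6 + g.2.v ^ 6 - g.2.y ^ 2) / 2 := (congrArg Prod.snd hab).symm
  have hb2 : 2 * ev W.b g.1 = g.2.w ^ 6 + g.2.v ^ 6 - g.2.y ^ 2 := by
    rw [hb, mul_div_cancel₀ _ (two_ne_zero)]
  set w := g.2.w with hw
  set v := g.2.v with hv
  set y := g.2.y with hy
  set x0 := w ^ 2 + v ^ 2 with hx0
  set x1 := om ^ 2 * w ^ 2 + om * v ^ 2 with hx1
  set x2 := om * w ^ 2 + om ^ 2 * v ^ 2 with hx2
  have p0 : g.pt = ⟨g.1, x0, 0 * x0 + y⟩ := by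
    unfold Lk.pt
    rw [zero_mul, zero_add]
  have p1 : Lk.pt (g.1, g.2.rot om) = ⟨g.1, x1, 0 * x1 + y⟩ := by
    unfold Lk.pt Vtx.rot
    simp only [Pt.mk.injEq, true_and, hinv]
    constructor
    · rw [hx1]
      linear_combination (om * v ^ 2) * h3
    · rw [h3]
      ring
  have p2 : Lk.pt (g.1, g.2.rot (om ^ 2)) = ⟨g.1, x2, 0 * x2 + y⟩ := by
    unfold Lk.pt Vtx.rot
    simp only [Pt.mk.injEq, true_and, hinv2]
    constructor
    · rw [hx2]
      linear_combination (om * w ^ 2) * h3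
    · linear_combination (om ^ 3 + 1) * y * h3
  have e1 : x0 + x1 + x2 = 0 := by
    rw [hx0, hx1, hx2]
    linear_combination (w ^ 2 + v ^ 2) * hom
  have e2 : x0 * x1 + x0 * x2 + x1 * x2 = - (3 * ev W.a g.1) := by
    rw [ha, hx0, hx1, hx2]
    have h4 : om ^ 4 = om := by linear_combination om * h3
    linear_combination ((w ^ 2 + v ^ 2) ^ 2 + (w ^ 2 * v ^ 2) * 0) * hom +
      (w ^ 4 + v ^ 4) * h3 + w ^ 2 * v ^ 2 * (h4 + hom)
  have e3 : x0 * x1 * x2 = 2 * ev W.b g.1 + y ^ 2 := by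
    rw [hb2, hx0, hx1, hx2]
    linear_combination (w ^ 2 + v ^ 2) * (w ^ 4 + v ^ 4) * h3 + (w ^ 2 + v ^ 2) * (w ^ 2 * v ^ 2) * (om * h3 + hom)
  have hp : epol (ev W.a g.1) (ev W.b g.1) 0 y = (X - C x0) * ((X - C x1) * (X - C x2)) := by
    have h5 : (X - C x0) * ((X - C x1) * (X - C x2)) = X ^ 3 - C (x0 + x1 + x2) * X ^ 2 +
        C (x0 * x1 + x0 * x2 + x1 * x2) * X - C (x0 * x1 * x2) := by
      simp only [map_add, map_mul]
      ring
    rw [h5, e1, e2, e3, epol]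
    simp only [map_neg, map_add, map_mul, map_pow, map_zero]
    ring
  have h := sl_line hW hP i h0 hg.I 0 y
  rw [hp, roots_mul (mul_ne_zero (X_sub_C_ne_zero _) (mul_ne_zero (X_sub_C_ne_zero _) (X_sub_C_ne_zero _))),
    roots_mul (mul_ne_zero (X_sub_C_ne_zero _) (X_sub_C_ne_zero _)), roots_X_sub_C, roots_X_sub_C,
    roots_X_sub_C, Multiset.map_add, Multiset.map_add, Multiset.map_singleton, Multiset.map_singleton,
    Multiset.map_singleton, Multiset.sum_add, Multiset.sum_add, Multiset.sum_singleton,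
    Multiset.sum_singleton, Multiset.sum_singleton, ← p0, ← p1, ← p2, ← add_assoc] at h
  exact h

omit [IsAlgClosed K] [CharZero K] in
theorem cube_root_six {om : K} (hom : om ^ 2 + om + 1 = 0) : om ^ 6 = 1 := by
  linear_combination (om ^ 4 - om ^ 3 + om - 1) * hom

/-- three points with the same `y`, rotated -/
theorem sl_rot3' (hW : W.Ok) (hP : ∀ j, OnW W (P j)) (i : Fin k) {g : Lk s K} (hg : g.Ok W) (h0 : g.1 ≠ 0) {om z : K}
    (hom : om ^ 2 + om + 1 = 0) (hz : z ^ 6 = 1) :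
    sl W P i (Lk.pt (g.1, g.2.rot z)) + sl W P i (Lk.pt (g.1, g.2.rot (om * z))) +
      sl W P i (Lk.pt (g.1, g.2.rot (om ^ 2 * z))) = 0 := by
  have h := sl_rot3 hW hP i (g := (g.1, g.2.rot z)) (Lk.rot_ok hg hz) h0 hom
  have e : ∀ c : K, (g.2.rot z).rot c = g.2.rot (c * z) := by
    intro c
    unfold Vtx.rot
    simp only [Vtx.mk.injEq]
    refine ⟨by ring, ?_, by ring⟩
    rw [mul_inv]
    ring
  simp only [e] at h
  exact h

/-! ## the sum `Psi` -/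

omit [IsAlgClosed K] [CharZero K] in
theorem mem_mu6 {z : K} : z ∈ mu6 K ↔ z ^ 6 = 1 := by
  unfold mu6
  rw [mem_nthRootsFinset (by norm_num)]

omit [IsAlgClosed K] [CharZero K] in
theorem mem_Z6 {z : Fin k → K} : z ∈ Z6 k K ↔ (∀ i, z i ^ 6 = 1) ∧ ∏ i, z i = 1 := by
  classical
  simp only [Z6, Finset.mem_filter, Fintype.mem_piFinset, mem_mu6]

omit [IsAlgClosed K] [CharZero K] in
theorem nth_mem {f : List (Lk s K)} {i : ℕ} (hi : i < f.length) : nth f i ∈ f := by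
  unfold nth
  rw [List.getD_eq_getElem _ _ hi]
  exact List.getElem_mem hi

omit [IsAlgClosed K] in
/-- the points of the rotated links are on `W` -/
theorem tup_onW {f : List (Lk s K)} (hf : ∀ g ∈ f, g.Ok W) (h0 : ∀ g ∈ f, g.1 ≠ 0) (hk : f.length = k) {z : Fin k → K}
    (hz : ∀ i, z i ^ 6 = 1) (i : Fin k) : OnW W (tup k f z i) := by
  have hm : nth f i ∈ f := nth_mem (by rw [hk]; exact i.2)
  exact Lk.onW two_ne_zero (Lk.rot_ok (hf _ hm) (hz i)) (show (nth f i).1 ≠ 0 from h0 _ hm)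

/-- three rotations of the first link -/
theorem Psi_rot3 (hW : W.Ok) {g : Lk s K} {f : List (Lk s K)} (hf : ∀ g' ∈ g :: f, g'.Ok W)
    (h0 : ∀ g' ∈ g :: f, g'.1 ≠ 0) (hk : (g :: f).length = k) {om : K} (hom : om ^ 2 + om + 1 = 0) :
    Psi W k ((g.1, g.2.rot 1) :: f) + Psi W k ((g.1, g.2.rot om) :: f) +
      Psi W k ((g.1, g.2.rot (om ^ 2)) :: f) = 0 := by
  obtain ⟨k, rfl⟩ : ∃ k', k = k' + 1 := ⟨k - 1, by rw [List.length_cons] at hk; omega⟩
  unfold Psi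
  rw [← Finset.sum_add_distrib, ← Finset.sum_add_distrib]
  refine Finset.sum_eq_zero fun z hz => ?_
  rw [mem_Z6] at hz
  have key : ∀ c : K, cls W (tup (k + 1) ((g.1, g.2.rot c) :: f) z) =
      sl W (tup (k + 1) (g :: f) z) 0 (Lk.pt (g.1, g.2.rot (c * z 0))) := by
    intro c
    unfold sl
    congr 1
    funext i
    by_cases hi : i = 0
    · subst hi
      rw [Function.update_self]
      unfold tup nth
      show Lk.pt (g.1, (g.2.rot c).rot (z 0)) = _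
      congr 2
      unfold Vtx.rot
      simp only [Vtx.mk.injEq]
      refine ⟨by ring, ?_, by ring⟩
      rw [mul_inv]
      ring
    · rw [Function.update_of_ne hi]
      obtain ⟨j, rfl⟩ := Fin.exists_succ_eq.2 hi
      rfl
  rw [key, key, key, one_mul]
  exact sl_rot3' hW (fun j => tup_onW hf h0 hk hz.1 j) 0 (hf g List.mem_cons_self) (h0 g List.mem_cons_self)
    hom (hz.1 0)

end ES
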